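import Pool.Agent.H332.HT.Defs

/-!
Project HT (helper332), job SUPP: supporting functionals of the shadow.
-/

set_option autoImplicit false

namespace Pool.Agent.H396.HT

open Pool.Agent.H332.HT

theorem supp (hP : S_P) : S_supp := by
  intro K hK p _ hp
  obtain ⟨_, hcv, _, h0, _, _, hseg⟩ := hP K hK
  obtain ⟨f, hf⟩ := geometric_hahn_banach_open_point hcv.interior isOpen_interior hp
  have hpos : 0 < f p := by
    have h := hf 0 h0
    rwa [map_zero] at h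
  have hlt : ∀ r ∈ IP K, (f p)⁻¹ * f r < 1 := by
    intro r hr
    rw [inv_mul_lt_iff₀ hpos, mul_one]
    exact hf r hr
  refine ⟨(f p)⁻¹ • f.toLinearMap, ?_, ?_, ?_⟩
  · change (f p)⁻¹ * f p = 1
    exact inv_mul_cancel₀ hpos.ne'
  · intro r hr
    change (f p)⁻¹ * f r ≤ 1
    by_contra hcon
    have hgt : 1 < (f p)⁻¹ * f r := not_le.1 hcon
    have hg0 : 0 < (f p)⁻¹ * f r := zero_lt_one.trans hgt
    have hs0 : 0 < 1 - ((f p)⁻¹ * f r)⁻¹ := by
      have : ((f p)⁻¹ * f r)⁻¹ < 1 := inv_lt_one_of_one_lt₀ hgt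
      linarith
    have hs1 : 1 - ((f p)⁻¹ * f r)⁻¹ ≤ 1 := by
      have : 0 < ((f p)⁻¹ * f r)⁻¹ := inv_pos.2 hg0
      linarith
    have hmem := hseg 0 h0 r hr _ hs0 hs1
    have h1 := hlt _ hmem
    rw [smul_zero, zero_add, map_smul, smul_eq_mul, sub_sub_cancel] at h1
    have h2 : (f p)⁻¹ * (((f p)⁻¹ * f r)⁻¹ * f r) = 1 := by
      have h3 : (f p)⁻¹ * (((f p)⁻¹ * f r)⁻¹ * f r) = ((f p)⁻¹ * f r)⁻¹ * ((f p)⁻¹ * f r) := by
        ring
      rw [h3]
      exact inv_mul_cancel₀ hg0.ne'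
    rw [h2] at h1
    exact lt_irrefl _ h1
  · intro r hr
    change (f p)⁻¹ * f r < 1
    exact hlt r hr

end Pool.Agent.H396.HT
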